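import Pool.Agent.helper50.NPT.Spec1

/-!
# Project NPT (MP_8f32d0_ag), row CEX: existence of the data over a domain
-/

set_option autoImplicit false

namespace NPT

open scoped Classical
open AN

noncomputable section

section

variable {R : Type} [CommRing R]

theorem CEX_mono (n : ℤ) (c : R) : mono n c = LS.C c * mono n 1 := by
  rw [C_mul, smul_mono, mul_one]

theorem CEX_eP (p : ℕ) {g : ℕ} (γ : Fin g → ℕ) (H : Matrix (Fin g) (Fin g) R) (α o : Fin g → LS R)
    (h : ∀ j, (mono (-(γ j : ℤ)) (1 : R)) ^ p = (∑ i, mono (-(γ i : ℤ)) (H i j)) + α j + o j)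
    (v : Fin g → R) :
    eP p γ v = ee γ (H.mulVec v) + (∑ j, LS.C (v j) * α j) + ∑ j, LS.C (v j) * o j := by
  unfold eP ee
  have e1 : ∀ i, mono (-(γ i : ℤ)) (H.mulVec v i) = ∑ j, LS.C (v j) * mono (-(γ i : ℤ)) (H i j) := by
    intro i
    rw [CEX_mono, Matrix.mulVec, dotProduct, map_sum, Finset.sum_mul]
    refine Finset.sum_congr rfl fun j _ => ?_
    rw [CEX_mono _ (H i j), map_mul]
    ring
  rw [Finset.sum_congr rfl fun i _ => e1 i, Finset.sum_comm, ← Finset.sum_add_distrib,
    ← Finset.sum_add_distrib]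
  refine Finset.sum_congr rfl fun j _ => ?_
  rw [h j, mul_add, mul_add, Finset.mul_sum]

theorem CEX_inj : Function.Injective (LS.C : R →+* LS R) := by
  intro a b h
  have h1 := congrArg (fun f => cf f 0) h
  simp only [cf_C, if_true] at h1
  exact h1

theorem CEX_pow (p : ℕ) [Fact p.Prime] [CharP R p] {g : ℕ} (γ : Fin g → ℕ) (x : Fin g → R) :
    ee γ x ^ p = eP p γ (frV p x) := by
  have : CharP (LS R) p := charP_of_injective_ringHom (CEX_inj (R := R)) p
  have : ExpChar (LS R) p := ExpChar.prime Fact.out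
  unfold ee eP frV
  rw [sum_pow_char p]
  refine Finset.sum_congr rfl fun j _ => ?_
  rw [CEX_mono, mul_pow, ← map_pow]

theorem CEX_eesmul {g : ℕ} (γ : Fin g → ℕ) (c : R) (x : Fin g → R) :
    ee γ (fun i => c * x i) = LS.C c * ee γ x := by
  unfold ee
  rw [Finset.mul_sum]
  refine Finset.sum_congr rfl fun j _ => ?_
  rw [C_mul, smul_mono]

theorem CEX_res {g : ℕ} (γ : Fin g → ℕ) (u : Fin g → R) (w : LS R) :
    res (ee γ u * w) = ∑ i, u i * res (mono (-(γ i : ℤ)) 1 * w) := by
  unfold ee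
  rw [Finset.sum_mul, res_sum]
  refine Finset.sum_congr rfl fun i _ => ?_
  rw [CEX_mono, mul_assoc, C_mul, res_smul]

theorem CEX_ddeP (p : ℕ) [CharP R p] {g : ℕ} (γ : Fin g → ℕ) (c : Fin g → R) :
    dd (eP p γ c) = 0 := by
  unfold eP
  rw [map_sum]
  refine Finset.sum_eq_zero fun j _ => ?_
  rw [dd_mul, dd_C, dd_pow_char p _ p (dvd_refl p), zero_mul, mul_zero, add_zero]

theorem CEX_lin {L : Type} [Field L] {g : ℕ} (M : Matrix (Fin g) (Fin g) L) (hr : g ≤ M.rank + 1)
    (y : Fin g → L) (hy : y ≠ 0) (h0 : ∀ j, ∑ i, M i j * y i = 0) (v : Fin g → L)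
    (hv : ∑ i, v i * y i = 0) : ∃ b, M.mulVec b = v := by
  let φ : (Fin g → L) →ₗ[L] L :=
    { toFun := fun u => ∑ i, u i * y i
      map_add' := fun u u' => by
        rw [← Finset.sum_add_distrib]
        exact Finset.sum_congr rfl fun i _ => by rw [Pi.add_apply]; ring
      map_smul' := fun c u => by
        rw [RingHom.id_apply, smul_eq_mul, Finset.mul_sum]
        exact Finset.sum_congr rfl fun i _ => by rw [Pi.smul_apply, smul_eq_mul]; ring }
  have hle : LinearMap.range M.mulVecLin ≤ LinearMap.ker φ := by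
    rintro _ ⟨b, rfl⟩
    rw [LinearMap.mem_ker]
    show ∑ i, (M.mulVec b) i * y i = 0
    have e : ∀ i, (M.mulVec b) i * y i = ∑ j, b j * (M i j * y i) := by
      intro i
      rw [Matrix.mulVec, dotProduct, Finset.sum_mul]
      exact Finset.sum_congr rfl fun j _ => by ring
    rw [Finset.sum_congr rfl fun i _ => e i, Finset.sum_comm]
    refine Finset.sum_eq_zero fun j _ => ?_
    rw [← Finset.mul_sum, h0 j, mul_zero]
  have h1 := LinearMap.finrank_range_add_finrank_ker φ
  rw [Module.finrank_fin_fun] at h1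
  have h2 : 0 < Module.finrank L (LinearMap.range φ) := by
    rw [Module.finrank_pos_iff]
    obtain ⟨i, hi⟩ := Function.ne_iff.mp hy
    refine ⟨⟨⟨φ (Pi.single i 1), Pi.single i 1, rfl⟩, 0, fun h => hi ?_⟩⟩
    have h3 : φ (Pi.single i 1) = 0 := congrArg Subtype.val h
    have h4 : φ (Pi.single i 1) = y i := by
      show ∑ j, (Pi.single i (1 : L) : Fin g → L) j * y j = y i
      rw [Finset.sum_eq_single i]
      · rw [Pi.single_eq_same, one_mul]
      · intro j _ hj
        rw [Pi.single_eq_of_ne hj, zero_mul]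
      · intro h
        exact absurd (Finset.mem_univ i) h
    rw [← h4, h3]
    rfl
  have h5 : LinearMap.range M.mulVecLin = LinearMap.ker φ := by
    refine Submodule.eq_of_le_of_finrank_le hle ?_
    have h6 : M.rank = Module.finrank L (LinearMap.range M.mulVecLin) := rfl
    omega
  have h7 : v ∈ LinearMap.range M.mulVecLin := by
    rw [h5, LinearMap.mem_ker]
    exact hv
  obtain ⟨b, hb⟩ := h7
  exact ⟨b, hb⟩

end

theorem CEX (hKA : KA_stmt) (hKB : KB_stmt) (hKE : KE_stmt) (hCE : CE_stmt) (hPG : PG_stmt)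
    (hPPM : PPM_stmt) (hZWR : ZWR_stmt) : CEX_stmt := by
  intro p hp R _ _ _ g γ a hK hg hMN K _ ψ hψ hrk
  have hpp : p.Prime := hp.out
  obtain ⟨H, hH⟩ : ∃ H, H = HW p γ a := ⟨_, rfl⟩
  rw [← hH] at hMN hrk
  obtain ⟨ka1, -, -⟩ := hKA R g γ a hK
  obtain ⟨-, -, -, -, kbres, -, -, -⟩ := hKB R g γ a hK
  -- the largest n
  have hM1 : MN p H 1 = H := by
    show H * frM p (1 : Matrix (Fin g) (Fin g) R) = H
    have : frM p (1 : Matrix (Fin g) (Fin g) R) = 1 := by
      unfold frM
      exact Matrix.map_one _ (zero_pow hpp.ne_zero) (one_pow p)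
    rw [this, mul_one]
  have hH0 : H ≠ 0 := by
    intro h
    rw [h] at hrk
    have e : (0 : Matrix (Fin g) (Fin g) R).map ψ = 0 := Matrix.map_zero _ (map_zero ψ)
    rw [e, Matrix.rank_zero] at hrk
    omega
  have hex : ∃ n, MN p H n = 0 := ⟨g, hMN⟩
  obtain ⟨k, hk1, hk2⟩ : ∃ k, MN p H (k + 1) ≠ 0 ∧ MN p H (k + 2) = 0 := by
    have h1 := Nat.find_spec hex
    have h2 : Nat.find hex ≠ 0 := by
      intro h
      rw [h] at h1
      have i0 : Fin g := ⟨0, by omega⟩
      have h3 := congrFun (congrFun h1 i0) i0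
      have h4 : (1 : Matrix (Fin g) (Fin g) R) i0 i0 = 0 := h3
      rw [Matrix.one_apply_eq] at h4
      exact one_ne_zero h4
    have h3 : Nat.find hex ≠ 1 := by
      intro h
      rw [h, hM1] at h1
      exact hH0 h1
    refine ⟨Nat.find hex - 2, ?_, ?_⟩
    · exact Nat.find_min hex (by omega)
    · have e : Nat.find hex - 2 + 2 = Nat.find hex := by omega
      rw [e]
      exact h1
  obtain ⟨i0, j0, hij⟩ : ∃ i j, MN p H (k + 1) i j ≠ 0 := by
    by_contra hcon
    push Not at hcon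
    exact hk1 (Matrix.ext hcon)
  obtain ⟨x, hx⟩ : ∃ x : Fin g → R, x = fun i => MN p H (k + 1) i j0 := ⟨_, rfl⟩
  obtain ⟨c', hc'⟩ : ∃ c' : Fin g → R, c' = fun i => frM p (MN p H k) i j0 := ⟨_, rfl⟩
  have hxi : x i0 ≠ 0 := by rw [hx]; exact hij
  have hHc' : H.mulVec c' = x := by
    rw [hx, hc']
    rfl
  have hHx : H.mulVec (frV p x) = 0 := by
    have h1 : H.mulVec (frV p x) = fun i => MN p H (k + 2) i j0 := by
      rw [hx]
      rfl
    rw [h1, hk2]
    rfl
  -- the Hasse-Witt relation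
  have hKE' := hKE p R g γ a hK
  rw [← hH] at hKE'
  choose α hα o ho he using hKE'
  obtain ⟨Am, hAm⟩ : ∃ Am : (Fin g → R) → LS R, Am = fun v => ∑ j, LS.C (v j) * α j := ⟨_, rfl⟩
  obtain ⟨Om, hOm⟩ : ∃ Om : (Fin g → R) → LS R, Om = fun v => ∑ j, LS.C (v j) * o j := ⟨_, rfl⟩
  have hAmem : ∀ v, Am v ∈ AA γ a := by
    intro v
    rw [hAm]
    refine Submodule.sum_mem _ fun j _ => ?_
    rw [C_mul]
    exact Submodule.smul_mem _ _ (hα j)
  have hOmem : ∀ v, Om v ∈ PS R := by
    intro v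
    rw [hOm]
    refine Submodule.sum_mem _ fun j _ => ?_
    rw [C_mul]
    exact Submodule.smul_mem _ _ (ho j)
  have heP : ∀ v, eP p γ v = ee γ (H.mulVec v) + Am v + Om v := by
    intro v
    rw [hAm, hOm]
    exact CEX_eP p γ H α o he v
  have hee0 : ee γ (0 : Fin g → R) = 0 := by
    unfold ee
    refine Finset.sum_eq_zero fun j _ => ?_
    rw [Pi.zero_apply, mono_zero]
  obtain ⟨g0, hg0⟩ : ∃ g0, g0 = Am (frV p x) := ⟨_, rfl⟩
  obtain ⟨o0, ho0⟩ : ∃ o0, o0 = Om (frV p x) := ⟨_, rfl⟩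
  have hg0m : g0 ∈ AA γ a := by rw [hg0]; exact hAmem _
  have ho0m : o0 ∈ PS R := by rw [ho0]; exact hOmem _
  have eg : eP p γ (frV p x) = g0 + o0 := by
    rw [heP, hHx, hee0, zero_add, hg0, ho0]
  have e1 : ee γ x ^ p = g0 + o0 := by
    rw [CEX_pow, eg]
  have e3 : ∀ c : Fin g → R, ee γ (H.mulVec c) = eP p γ c + -Am c + -Om c := by
    intro c
    rw [heP]
    ring
  -- the differential
  obtain ⟨w, hw⟩ : ∃ w, w = dd g0 := ⟨_, rfl⟩
  have hdo : dd o0 = -w := by
    have h1 : dd (g0 + o0) = 0 := by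
      rw [← eg]
      exact CEX_ddeP p γ _
    rw [map_add, ← hw] at h1
    exact eq_neg_of_add_eq_zero_right h1
  have hwPS : w ∈ PS R := by
    have h1 := Submodule.neg_mem _ (dd_mem_PS ho0m)
    rw [hdo, neg_neg] at h1
    exact h1
  have hw0 : w ≠ 0 := by
    intro h
    have h1 := hCE p R g γ a hK (frV p x) g0 hg0m o0 ho0m eg (by rw [← hw, h])
    have h2 : (x i0) ^ p = 0 := congrFun h1 i0
    exact hxi (pow_eq_zero_iff hpp.ne_zero |>.mp h2)
  obtain ⟨y, hy⟩ : ∃ y : Fin g → R, y = fun i => res (mono (-(γ i : ℤ)) 1 * w) := ⟨_, rfl⟩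
  have hres : ∀ u : Fin g → R, res (ee γ u * w) = ∑ i, u i * y i := by
    intro u
    rw [CEX_res, hy]
  have hA0 : ∀ f ∈ AA γ a, res (f * w) = 0 := by
    intro f hf
    rw [hw]
    exact kbres f hf g0 hg0m
  have hO0 : ∀ f ∈ PS R, res (f * w) = 0 := fun f hf => res_PS (PS_mul hf hwPS)
  have hy0 : y ≠ 0 := by
    intro h
    apply hw0
    ext n
    obtain ⟨β, hβ, c, o', ho', hf⟩ := ka1 (mono (-1 - n) 1)
    have h1 : res (mono (-1 - n) (1 : R) * w) = 0 := by
      rw [hf, add_mul, add_mul, res_add, res_add, hA0 β hβ, hO0 o' (GE_mono (by norm_num) ho')]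
      have h2 := hres c
      rw [h] at h2
      simp only [Pi.zero_apply, mul_zero, Finset.sum_const_zero] at h2
      unfold ee at h2
      rw [h2]
      simp
    unfold res at h1
    rw [cf_mono_mul, one_mul] at h1
    have e : (-1 : ℤ) - (-1 - n) = n := by ring
    rw [e] at h1
    rw [h1, cf_zero]
  have hHy : ∀ j, ∑ i, H i j * y i = 0 := by
    intro j
    have h1 : ee γ (fun i => H i j) = (mono (-(γ j : ℤ)) (1 : R)) ^ p - α j - o j := by
      rw [he j]
      unfold ee
      ring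
    have h2 := hres (fun i => H i j)
    rw [← h2, h1, sub_mul, sub_mul, res_sub, res_sub, hA0 _ (hα j), hO0 _ (ho j), sub_zero, sub_zero]
    have h3 : (mono (-(γ j : ℤ)) (1 : R)) ^ p * w = dd ((mono (-(γ j : ℤ)) (1 : R)) ^ p * g0) := by
      rw [dd_mul, dd_pow_char p _ p (dvd_refl p), zero_mul, zero_add, hw]
    rw [h3, res_dd]
  -- the class of z
  obtain ⟨αz, hαz, v, oz, hoz, hz⟩ := ka1 (P2 p g0 o0)
  have hvy : ∑ i, v i * y i = 0 := by
    have h1 := (hZWR p R g γ a hK (ee γ x) g0 o0 (eP p γ c') (-Am c') (-Om c') hg0m ho0m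
      (Submodule.neg_mem _ (hAmem _)) (Submodule.neg_mem _ (hOmem _)) e1
      (by rw [← e3, hHc']) (CEX_ddeP p γ c')).2
    rw [← hw, hz, add_mul, add_mul, res_add, res_add, hA0 _ hαz,
      hO0 _ (GE_mono (by norm_num) hoz), add_zero, zero_add] at h1
    rw [← hres]
    exact h1
  -- linear algebra over the fraction field
  obtain ⟨d, hd, b, hb⟩ : ∃ d : R, d ≠ 0 ∧ ∃ b : Fin g → R, H.mulVec b = fun i => d * v i := by
    have hι : Function.Injective (algebraMap R (FractionRing R)) := IsFractionRing.injective R _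
    have hr : g ≤ (H.map (algebraMap R (FractionRing R))).rank + 1 := by
      have h1 := hPG.2.2 R K ψ (FractionRing R) (algebraMap R (FractionRing R))
        (by rw [(RingHom.injective_iff_ker_eq_bot ψ).mp hψ,
          (RingHom.injective_iff_ker_eq_bot (algebraMap R (FractionRing R))).mp hι]) g g H
      rw [← h1]
      exact hrk
    obtain ⟨b, hb⟩ := CEX_lin (H.map (algebraMap R (FractionRing R))) hr
      (fun i => algebraMap R (FractionRing R) (y i))
      (by
        intro h
        apply hy0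
        funext i
        apply hι
        rw [Pi.zero_apply, map_zero]
        exact congrFun h i)
      (by
        intro j
        have h1 := congrArg (algebraMap R (FractionRing R)) (hHy j)
        rw [map_zero, map_sum] at h1
        rw [← h1]
        refine Finset.sum_congr rfl fun i _ => ?_
        rw [map_mul]
        rfl)
      (fun i => algebraMap R (FractionRing R) (v i))
      (by
        have h1 := congrArg (algebraMap R (FractionRing R)) hvy
        rw [map_zero, map_sum] at h1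
        rw [← h1]
        refine Finset.sum_congr rfl fun i _ => ?_
        rw [map_mul])
    obtain ⟨d, hd⟩ := IsLocalization.exist_integer_multiples_of_finite (nonZeroDivisors R) b
    choose bR hbR using hd
    refine ⟨d, nonZeroDivisors.ne_zero d.2, bR, ?_⟩
    funext i
    apply hι
    have h1 := congrFun hb i
    rw [map_mul, ← h1, Matrix.mulVec, dotProduct, Matrix.mulVec, dotProduct, map_sum, Finset.mul_sum]
    refine Finset.sum_congr rfl fun j _ => ?_
    rw [map_mul, hbR j, Matrix.map_apply, Algebra.smul_def]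
    ring
  -- the data
  have hPP : ∀ n : ℕ, d ^ n ≠ 0 := fun n => pow_ne_zero n hd
  obtain ⟨cc, hcc⟩ : ∃ cc : Fin g → R, cc = fun j => d ^ (p * p - 1) * b j := ⟨_, rfl⟩
  have hpp1 : p * p - 1 + 1 = p * p := by
    have := Nat.mul_pos hpp.pos hpp.pos
    omega
  have hHcc : H.mulVec cc = fun i => d ^ (p * p) * v i := by
    funext i
    have h1 := congrFun hb i
    rw [hcc, Matrix.mulVec, dotProduct]
    rw [Matrix.mulVec, dotProduct] at h1
    have h2 : ∑ j, H i j * (d ^ (p * p - 1) * b j) = d ^ (p * p - 1) * ∑ j, H i j * b j := by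
      rw [Finset.mul_sum]
      exact Finset.sum_congr rfl fun j _ => by ring
    rw [h2, h1, ← mul_assoc, ← pow_succ, hpp1]
  obtain ⟨c2, hc2⟩ : ∃ c2 : Fin g → R, c2 = fun j => d * c' j := ⟨_, rfl⟩
  have hHc2 : H.mulVec c2 = fun i => d * x i := by
    funext i
    have h1 := congrFun hHc' i
    rw [hc2, Matrix.mulVec, dotProduct]
    rw [Matrix.mulVec, dotProduct] at h1
    rw [← h1, Finset.mul_sum]
    exact Finset.sum_congr rfl fun j _ => by ring
  have hCA : ∀ (c : R) (f : LS R), f ∈ AA γ a → LS.C c * f ∈ AA γ a := by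
    intro c f hf
    rw [C_mul]
    exact Submodule.smul_mem _ _ hf
  have hCO : ∀ (c : R) (f : LS R), f ∈ PS R → LS.C c * f ∈ PS R := by
    intro c f hf
    rw [C_mul]
    exact Submodule.smul_mem _ _ hf
  refine ⟨{ x := fun i => d * x i, c := cc, c' := c2,
            g0 := LS.C (d ^ p) * g0, o0 := LS.C (d ^ p) * o0,
            al := LS.C (d ^ (p * p)) * αz - Am cc, o := LS.C (d ^ (p * p)) * oz - Om cc,
            a1 := -Am c2, o1 := -Om c2,
            hg0 := hCA _ _ hg0m, ho0 := hCO _ _ ho0m,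
            hal := Submodule.sub_mem _ (hCA _ _ hαz) (hAmem _),
            ho := Submodule.sub_mem _ (hCO _ _ (GE_mono (by norm_num) hoz)) (hOmem _),
            ha1 := Submodule.neg_mem _ (hAmem _), ho1 := Submodule.neg_mem _ (hOmem _),
            e1 := ?_, e2 := ?_, e3 := ?_ }, ?_⟩
  · rw [CEX_eesmul, mul_pow, e1, ← map_pow]
    ring
  · rw [hPPM.2.1 p (LS R) (LS.C (d ^ p)) g0 o0, hz, ← map_pow, ← pow_mul]
    have h1 : ee γ (H.mulVec cc) = LS.C (d ^ (p * p)) * ee γ v := by
      rw [hHcc, CEX_eesmul]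
    rw [heP cc, h1]
    unfold ee
    ring
  · rw [← hHc2]
    exact e3 c2
  · intro h
    have h1 : d * x i0 = 0 := congrFun h i0
    exact (mul_ne_zero hd hxi) h1

end

end NPT
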